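import Pool.Agent.H30.L.R_seed8.TH212.DV.C12

set_option autoImplicit false

/-! The singular series is bounded from below. -/

namespace Pool.Agent.TH212.DV
open Finset

lemma per_avg (f : ℕ → ℝ) (m n : ℕ) (hf : ∀ k, f (k + m) = f k) : ∑ b ∈ range (n * m), f b = n * ∑ b ∈ range m, f b := by
  have hper : ∀ j k, f (j * m + k) = f k := by
    intro j
    induction j with
    | zero => intro k; simp
    | succ j ih =>
      intro k
      have e : (j + 1) * m + k = (j * m + k) + m := by ring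
      rw [e, hf, ih]
  induction n with
  | zero => simp
  | succ n ih =>
    rw [add_mul, one_mul, sum_range_add, ih]
    simp only [hper]
    push_cast
    ring

lemma gcd_per (b q : ℕ) : Nat.gcd (b + q) q = Nat.gcd b q := by
  rw [Nat.gcd_add_self_left]

lemma kap_anti (s : ℕ) : ∀ q q' : ℕ, 1 ≤ q → q' ∣ q → kap s q ≤ kap s q' := by
  induction s with
  | zero =>
    intro q q' hq hd
    unfold kap
    by_cases h : q = 1
    · subst h
      rw [Nat.dvd_one] at hd
      rw [if_pos rfl, if_pos hd]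
    · rw [if_neg h]
      split_ifs <;> norm_num
  | succ s ih =>
    intro q q' hq hd
    obtain ⟨m, rfl⟩ := hd
    have hm : 1 ≤ m := Nat.pos_of_ne_zero (by rintro rfl; simp at hq)
    have hq' : 1 ≤ q' := Nat.pos_of_ne_zero (by rintro rfl; simp at hq)
    have hq'0 : (0 : ℝ) < q' := by exact_mod_cast hq'
    have hm0 : (0 : ℝ) < m := by exact_mod_cast hm
    rw [kap_succ, kap_succ]
    have h1 : ∑ b ∈ range (q' * m), kap s (q' * m / Nat.gcd b (q' * m)) ≤ ∑ b ∈ range (m * q'), kap s (q' / Nat.gcd b q') := by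
      rw [mul_comm q' m]
      apply sum_le_sum
      intro b _
      rw [mul_comm m q']
      have hg : 0 < Nat.gcd b (q' * m) := Nat.gcd_pos_of_pos_right _ hq
      apply ih
      · exact Nat.div_pos (Nat.le_of_dvd hq (Nat.gcd_dvd_right _ _)) hg
      · rw [← dvd_mul_iff q' b _ hq']
        exact (Dvd.intro m rfl).trans ((dvd_mul_iff (q' * m) b _ hq).2 dvd_rfl)
    rw [per_avg (fun b => kap s (q' / Nat.gcd b q')) q' m (fun k => by simp only [gcd_per])] at h1
    push_cast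
    rw [div_le_div_iff₀ (by positivity) hq'0]
    nlinarith [mul_le_mul_of_nonneg_right h1 hq'0.le]

lemma crt_sum (F G : ℕ → ℝ) (m n : ℕ) (hm : 1 ≤ m) (hn : 1 ≤ n) (hmn : Nat.Coprime m n) (hF : ∀ b, F b = F (b % m)) (hG : ∀ b, G b = G (b % n)) :
    ∑ b ∈ range (m * n), F b * G b = (∑ a ∈ range m, F a) * ∑ c ∈ range n, G c := by
  rw [sum_mul_sum, ← sum_product']
  apply sum_bij (fun b _ => (b % m, b % n))
  · intro b _
    rw [mem_product, mem_range, mem_range]
    exact ⟨Nat.mod_lt _ hm, Nat.mod_lt _ hn⟩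
  · intro b hb c hc h
    rw [mem_range] at hb hc
    rw [Prod.mk.injEq] at h
    have h2 : b ≡ c [MOD m * n] := (Nat.modEq_and_modEq_iff_modEq_mul hmn).1 ⟨h.1, h.2⟩
    exact Nat.ModEq.eq_of_lt_of_lt h2 hb hc
  · intro x hx
    rw [mem_product, mem_range, mem_range] at hx
    have h1 := (Nat.chineseRemainder hmn x.1 x.2).2
    refine ⟨(Nat.chineseRemainder hmn x.1 x.2 : ℕ), ?_, ?_⟩
    · rw [mem_range]
      exact Nat.chineseRemainder_lt_mul hmn x.1 x.2 (by omega) (by omega)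
    · ext
      · have := h1.1
        unfold Nat.ModEq at this
        simp only
        rw [this, Nat.mod_eq_of_lt hx.1]
      · have := h1.2
        unfold Nat.ModEq at this
        simp only
        rw [this, Nat.mod_eq_of_lt hx.2]
  · intro b _
    simp only
    rw [hF b, hG b]

lemma kap_mul (s : ℕ) : ∀ m n : ℕ, 1 ≤ m → 1 ≤ n → Nat.Coprime m n → kap s (m * n) = kap s m * kap s n := by
  induction s with
  | zero =>
    intro m n hm hn hmn
    unfold kap
    by_cases h1 : m = 1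
    · subst h1
      simp
    · have h2 : ¬ m * n = 1 := by
        intro h
        exact h1 (Nat.eq_one_of_mul_eq_one_right h)
      rw [if_neg h1, if_neg h2, zero_mul]
  | succ s ih =>
    intro m n hm hn hmn
    have hm0 : (0 : ℝ) < m := by exact_mod_cast hm
    have hn0 : (0 : ℝ) < n := by exact_mod_cast hn
    rw [kap_succ, kap_succ, kap_succ]
    have h1 : ∑ b ∈ range (m * n), kap s (m * n / Nat.gcd b (m * n)) = ∑ b ∈ range (m * n), kap s (m / Nat.gcd b m) * kap s (n / Nat.gcd b n) := by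
      apply sum_congr rfl
      intro b _
      have hg1 : 0 < Nat.gcd b m := Nat.gcd_pos_of_pos_right _ hm
      have hg2 : 0 < Nat.gcd b n := Nat.gcd_pos_of_pos_right _ hn
      have d1 := Nat.gcd_dvd_right b m
      have d2 := Nat.gcd_dvd_right b n
      rw [Nat.Coprime.gcd_mul b hmn, ← Nat.div_mul_div_comm d1 d2]
      apply ih
      · exact Nat.div_pos (Nat.le_of_dvd hm d1) hg1
      · exact Nat.div_pos (Nat.le_of_dvd hn d2) hg2
      · exact Nat.Coprime.coprime_dvd_left (Nat.div_dvd_of_dvd d1) (Nat.Coprime.coprime_dvd_right (Nat.div_dvd_of_dvd d2) hmn)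
    have hmod : ∀ q b : ℕ, Nat.gcd b q = Nat.gcd (b % q) q := by
      intro q b
      rw [Nat.gcd_comm, Nat.gcd_rec, Nat.gcd_comm]
    rw [h1, crt_sum (fun b => kap s (m / Nat.gcd b m)) (fun b => kap s (n / Nat.gcd b n)) m n hm hn hmn
      (fun b => by rw [hmod m b]) (fun b => by rw [hmod n b])]
    push_cast
    field_simp

/-- the divisors part of the Ramanujan sum -/
def gA (H : ℕ) : ArithmeticFunction ℤ := ⟨fun d => if d ∣ H then (d : ℤ) else 0, by simp⟩

lemma gA_apply (H d : ℕ) : gA H d = if d ∣ H then (d : ℤ) else 0 := rfl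

lemma gA_mult (H : ℕ) : (gA H).IsMultiplicative := by
  constructor
  · rw [gA_apply, if_pos (one_dvd _)]; rfl
  · intro m n hmn
    rw [gA_apply, gA_apply, gA_apply]
    by_cases h1 : m ∣ H
    · by_cases h2 : n ∣ H
      · rw [if_pos (Nat.Coprime.mul_dvd_of_dvd_of_dvd hmn h1 h2), if_pos h1, if_pos h2]
        push_cast
        ring
      · rw [if_pos h1, if_neg h2, if_neg (fun h => h2 ((Dvd.intro_left _ rfl).trans h)), mul_zero]
    · rw [if_neg h1, if_neg (fun h => h1 ((Dvd.intro _ rfl).trans h)), zero_mul]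

lemma cz_eq (q H : ℕ) : cz q (H : ℤ) = (ArithmeticFunction.moebius * gA H) q := by
  rw [ArithmeticFunction.mul_apply, Nat.sum_divisorsAntidiagonal' (f := fun x y => ArithmeticFunction.moebius x * gA H y)]
  unfold cz
  rw [sum_filter]
  apply sum_congr rfl
  intro d _
  rw [gA_apply]
  by_cases h : d ∣ H
  · rw [if_pos h, if_pos (Int.natCast_dvd_natCast.2 h)]
  · rw [if_neg h, if_neg (fun h' => h (Int.natCast_dvd_natCast.1 h')), mul_zero]

lemma cz_mul (H m n : ℕ) (hmn : Nat.Coprime m n) : cz (m * n) (H : ℤ) = cz m H * cz n H := by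
  rw [cz_eq, cz_eq, cz_eq]
  exact (ArithmeticFunction.isMultiplicative_moebius.mul (gA_mult H)).map_mul_of_coprime hmn

/-- the sum over the powers of a prime -/
lemma local_ge (s H p : ℕ) (hp : p.Prime) (E : ℕ) :
    1 - kap s p ^ 2 + kap s (p ^ (E + 1)) ^ 2 * (if p ^ (E + 1) ∣ H then ((p ^ (E + 1) : ℕ) : ℝ) else 0) ≤
      ∑ e ∈ range (E + 2), kap s (p ^ e) ^ 2 * (cz (p ^ e) (H : ℤ) : ℝ) := by
  have hC : ∀ e : ℕ, ∑ j ∈ range (e + 1), (cz (p ^ j) (H : ℤ) : ℝ) = if p ^ e ∣ H then ((p ^ e : ℕ) : ℝ) else 0 := by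
    intro e
    have h1 := sum_cz (p ^ e) (H : ℤ) (pow_pos hp.pos e)
    rw [Nat.sum_divisors_prime_pow hp] at h1
    rw [h1]
    by_cases h : p ^ e ∣ H
    · rw [if_pos h, if_pos (Int.natCast_dvd_natCast.2 h)]
    · rw [if_neg h, if_neg (fun h' => h (Int.natCast_dvd_natCast.1 h'))]
  have hdiff : ∀ e : ℕ, (cz (p ^ (e + 1)) (H : ℤ) : ℝ) = (if p ^ (e + 1) ∣ H then ((p ^ (e + 1) : ℕ) : ℝ) else 0) - if p ^ e ∣ H then ((p ^ e : ℕ) : ℝ) else 0 := by
    intro e
    rw [← hC (e + 1), ← hC e, sum_range_succ _ (e + 1)]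
    ring
  have hcz0 : (cz (p ^ 0) (H : ℤ) : ℝ) = 1 := by
    have := hC 0
    rw [zero_add, sum_range_one, pow_zero, if_pos (one_dvd _)] at this
    rw [pow_zero, this]
    norm_num
  have hk1 : kap s 1 = 1 := by
    clear hC hdiff hcz0
    induction s with
    | zero => unfold kap; rw [if_pos rfl]
    | succ s ih => rw [kap_succ]; simp [ih]
  induction E with
  | zero =>
    rw [zero_add, zero_add, pow_one, sum_range_succ, sum_range_one, hcz0, pow_zero, hk1, pow_one]
    have h1 := hdiff 0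
    rw [zero_add, pow_one, pow_zero, if_pos (one_dvd _)] at h1
    rw [h1]
    push_cast
    linarith
  | succ E ih =>
    rw [sum_range_succ, hdiff (E + 1)]
    have h1 : kap s (p ^ (E + 1 + 1)) ≤ kap s (p ^ (E + 1)) := kap_anti s _ _ (pow_pos hp.pos _) (pow_dvd_pow p (by omega))
    have h2 : kap s (p ^ (E + 1 + 1)) ^ 2 ≤ kap s (p ^ (E + 1)) ^ 2 := pow_le_pow_left₀ (kap_nonneg _ _) h1 2
    have h3 : 0 ≤ (if p ^ (E + 1) ∣ H then ((p ^ (E + 1) : ℕ) : ℝ) else 0) := by split_ifs <;> positivity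
    have h4 := mul_le_mul_of_nonneg_right h2 h3
    have e1 : E + 1 + 1 = E + 2 := rfl
    rw [← e1] at ih
    linarith

lemma kap_prime (s p : ℕ) (hp : p.Prime) : kap s p ≤ 1 - (1 / 2) ^ s := by
  have hp2 : (2 : ℝ) ≤ p := by exact_mod_cast hp.two_le
  have hp0 : (0 : ℝ) < p := by linarith
  induction s with
  | zero =>
    unfold kap
    rw [if_neg hp.one_lt.ne']
    norm_num
  | succ s ih =>
    rw [kap_succ]
    have h1 : ∑ b ∈ range p, kap s (p / Nat.gcd b p) ≤ 1 + (p - 1) * kap s p := by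
      obtain ⟨n, hn⟩ : ∃ n, p = n + 1 := ⟨p - 1, by have := hp.pos; omega⟩
      have h2 : ∑ b ∈ range p, kap s (p / Nat.gcd b p) = ∑ b ∈ range n, kap s (p / Nat.gcd (b + 1) p) + kap s (p / Nat.gcd 0 p) := by
        rw [hn, sum_range_succ']
      rw [h2]
      have h3 : ∀ b ∈ range n, kap s (p / Nat.gcd (b + 1) p) = kap s p := by
        intro b hb
        rw [mem_range] at hb
        have h4 : Nat.Coprime (b + 1) p := by
          rw [Nat.coprime_comm]
          exact (Nat.Prime.coprime_iff_not_dvd hp).2 (fun h => by have := Nat.le_of_dvd (Nat.succ_pos b) h; omega)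
        rw [Nat.coprime_iff_gcd_eq_one.1 h4, Nat.div_one]
      rw [sum_congr rfl h3, sum_const, card_range, nsmul_eq_mul]
      have e1 : (n : ℝ) = p - 1 := by rw [hn]; push_cast; ring
      rw [e1]
      have := kap_le_one s (p / Nat.gcd 0 p)
      linarith
    rw [div_le_iff₀ hp0]
    refine h1.trans ?_
    have h5 : (0 : ℝ) < (1 / 2) ^ s := by positivity
    have h6 : ((p : ℝ) - 1) * kap s p ≤ (p - 1) * (1 - (1 / 2) ^ s) := mul_le_mul_of_nonneg_left ih (by linarith)
    rw [pow_succ]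
    nlinarith

lemma dk_prime (s p : ℕ) (hp : p.Prime) : dk s p = s := by
  have h1 : ∀ s, dk s 1 = 1 := by
    intro s
    induction s with
    | zero => rw [dk_zero, if_pos rfl]
    | succ s ih => rw [dk_succ_apply, Nat.divisors_one, sum_singleton, ih]
  induction s with
  | zero => rw [dk_zero, if_neg hp.one_lt.ne']
  | succ s ih => rw [dk_succ_apply, hp.sum_divisors, ih, h1]

lemma one_sub_ge (s p : ℕ) (hp : p.Prime) : Real.exp (-((4 * (s : ℝ) ^ 3 + 2 * s ^ 2) * (1 / (p : ℝ) ^ 2))) ≤ 1 - kap s p ^ 2 := by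
  have hp2 : (2 : ℝ) ≤ p := by exact_mod_cast hp.two_le
  have hp0 : (0 : ℝ) < p := by linarith
  have hs0 : (0 : ℝ) ≤ s := Nat.cast_nonneg s
  have hk0 := kap_nonneg s p
  have hk1 : kap s p ≤ s / p := by
    have := kap_le s p hp.pos
    rwa [dk_prime s p hp] at this
  by_cases h : (p : ℝ) < 2 * s
  · -- small primes
    have h1 := kap_prime s p hp
    have h2 : (1 / 2 : ℝ) ^ s ≤ 1 - kap s p ^ 2 := by
      have := kap_le_one s p
      nlinarith
    refine le_trans ?_ h2
    have h3 : Real.exp (-(s : ℝ)) ≤ (1 / 2 : ℝ) ^ s := by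
      have e1 : Real.exp (-(s : ℝ)) = (Real.exp (-1)) ^ s := by
        rw [← Real.exp_nat_mul]; congr 1; ring
      rw [e1]
      apply pow_le_pow_left₀ (Real.exp_pos _).le
      rw [Real.exp_neg, one_div]
      apply inv_anti₀ (by norm_num)
      have := Real.add_one_le_exp (1 : ℝ)
      linarith
    refine le_trans ?_ h3
    apply Real.exp_le_exp.2
    rw [neg_le_neg_iff]
    rw [mul_one_div, le_div_iff₀ (by positivity)]
    have h4 : (p : ℝ) ^ 2 ≤ (2 * s) ^ 2 := pow_le_pow_left₀ hp0.le h.le 2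
    have h5 : (s : ℝ) * p ^ 2 ≤ s * (2 * s) ^ 2 := mul_le_mul_of_nonneg_left h4 hs0
    nlinarith [sq_nonneg (s : ℝ)]
  · push Not at h
    have h1 : kap s p ^ 2 ≤ s ^ 2 * (1 / (p : ℝ) ^ 2) := by
      have := pow_le_pow_left₀ hk0 hk1 2
      rw [div_pow] at this
      rw [mul_one_div]
      exact this
    have h2 : kap s p ≤ 1 / 2 := by
      refine hk1.trans ?_
      rw [div_le_div_iff₀ hp0 (by norm_num)]
      linarith
    have h3 : kap s p ^ 2 ≤ 1 / 4 := by nlinarith
    have h4 : Real.exp (-(2 * kap s p ^ 2)) ≤ 1 - kap s p ^ 2 := by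
      have h5 : 0 < 1 - kap s p ^ 2 := by linarith
      rw [← Real.le_log_iff_exp_le h5]
      have h6 := Real.one_sub_inv_le_log_of_pos h5
      refine le_trans ?_ h6
      have h7 : (1 - kap s p ^ 2)⁻¹ ≤ 1 + 2 * kap s p ^ 2 := by
        rw [inv_le_iff_one_le_mul₀ h5]
        nlinarith [sq_nonneg (kap s p)]
      linarith
    refine le_trans ?_ h4
    apply Real.exp_le_exp.2
    rw [neg_le_neg_iff]
    have h8 : 0 ≤ 4 * (s : ℝ) ^ 3 * (1 / (p : ℝ) ^ 2) := by positivity
    rw [add_mul]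
    linarith

/-- **The singular series is bounded from below.** -/
theorem sing_pos (t : ℕ) : ∃ c : ℝ, 0 < c ∧ ∀ H : ℕ, 1 ≤ H → c ≤ Sing (t + 1) H := by
  obtain ⟨a, ha⟩ : ∃ a : ℝ, a = 4 * ((t + 1 : ℕ) : ℝ) ^ 3 + 2 * ((t + 1 : ℕ) : ℝ) ^ 2 := ⟨_, rfl⟩
  have ha0 : 0 ≤ a := by rw [ha]; positivity
  have hs2 : Summable (fun n : ℕ => 1 / (n : ℝ) ^ 2) := Real.summable_one_div_nat_pow.2 (by norm_num)
  obtain ⟨Z, hZ⟩ : ∃ Z : ℝ, Z = ∑' n : ℕ, 1 / (n : ℝ) ^ 2 := ⟨_, rfl⟩
  refine ⟨Real.exp (-(a * Z)), Real.exp_pos _, fun H hH => ?_⟩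
  obtain ⟨f, hf⟩ : ∃ f : ℕ → ℝ, f = fun q => kap (t + 1) q ^ 2 * (cz q (H : ℤ) : ℝ) := ⟨_, rfl⟩
  have hsum : Summable f := by rw [hf]; exact sing_summable t H hH
  have hk1 : ∀ s, kap s 1 = 1 := by
    intro s
    induction s with
    | zero => unfold kap; rw [if_pos rfl]
    | succ s ih => rw [kap_succ]; simp [ih]
  have hf1 : f 1 = 1 := by
    rw [hf]
    simp only
    rw [hk1]
    unfold cz
    rw [Nat.divisors_one, filter_singleton, if_pos (by simp), sum_singleton]
    simp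
  have hf0 : f 0 = 0 := by
    rw [hf]
    simp only
    rw [cz_zero_left]
    simp
  have hmul : ∀ {m n : ℕ}, Nat.Coprime m n → f (m * n) = f m * f n := by
    intro m n hmn
    rcases Nat.eq_zero_or_pos m with h | h
    · subst h
      rw [zero_mul, hf0, zero_mul]
    · rcases Nat.eq_zero_or_pos n with h' | h'
      · subst h'
        rw [mul_zero, hf0, mul_zero]
      · rw [hf]
        simp only
        rw [kap_mul (t + 1) m n h h' hmn, cz_mul H m n hmn]
        push_cast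
        ring
  have hprod := EulerProduct.eulerProduct_hasProd hf1 hmul hsum.norm hf0
  have hlocal : ∀ p : Nat.Primes, Real.exp (-(a * (1 / ((p : ℕ) : ℝ) ^ 2))) ≤ ∑' e : ℕ, f ((p : ℕ) ^ e) := by
    intro p
    have h1 : Real.exp (-(a * (1 / ((p : ℕ) : ℝ) ^ 2))) ≤ 1 - kap (t + 1) p ^ 2 := by rw [ha]; exact one_sub_ge (t + 1) p p.2
    refine h1.trans ?_
    have hsp : Summable (fun e : ℕ => f ((p : ℕ) ^ e)) := hsum.comp_injective (Nat.pow_right_injective p.2.two_le)
    apply ge_of_tendsto hsp.hasSum.tendsto_sum_nat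
    filter_upwards [Filter.eventually_ge_atTop 2] with n hn
    have h2 := local_ge (t + 1) H p p.2 (n - 2)
    have e1 : n - 2 + 2 = n := by omega
    rw [e1] at h2
    have h3 : 0 ≤ kap (t + 1) ((p : ℕ) ^ (n - 2 + 1)) ^ 2 * (if (p : ℕ) ^ (n - 2 + 1) ∣ H then (((p : ℕ) ^ (n - 2 + 1) : ℕ) : ℝ) else 0) := by
      apply mul_nonneg (by positivity)
      split_ifs <;> positivity
    rw [hf]
    simp only
    linarith
  have hS : Sing (t + 1) H = ∑' n, f n := by rw [hf]; rfl
  rw [hS]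
  apply ge_of_tendsto hprod
  filter_upwards with S
  have h1 : ∏ p ∈ S, Real.exp (-(a * (1 / ((p : ℕ) : ℝ) ^ 2))) ≤ ∏ p ∈ S, ∑' e : ℕ, f ((p : ℕ) ^ e) :=
    prod_le_prod (fun _ _ => (Real.exp_pos _).le) (fun p _ => hlocal p)
  refine le_trans ?_ h1
  rw [← Real.exp_sum]
  apply Real.exp_le_exp.2
  rw [sum_neg_distrib, neg_le_neg_iff, ← mul_sum]
  apply mul_le_mul_of_nonneg_left _ ha0
  have h2 : ∑ p ∈ S, 1 / ((p : ℕ) : ℝ) ^ 2 = ∑ n ∈ S.map ⟨fun p : Nat.Primes => (p : ℕ), Subtype.coe_injective⟩, 1 / (n : ℝ) ^ 2 := by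
    rw [sum_map]
    rfl
  rw [h2, hZ]
  exact hs2.sum_le_tsum _ fun n _ => by positivity

end Pool.Agent.TH212.DV
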