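import Pool.Agent.H49.G.R_seed8.TH212.DV.C11
import Pool.Agent.H30.L.R_seed8.TH212.DV.C7

set_option autoImplicit false

/-! The singular series. -/

namespace Pool.Agent.TH212.DV
open Finset

/-- the weighted sum over the divisors -/
noncomputable def sg (H : ℕ) : ℝ := ∑ g ∈ H.divisors, (g : ℝ) ^ (-(1 / 2) : ℝ)

lemma sg_nonneg (H : ℕ) : 0 ≤ sg H := sum_nonneg fun g _ => Real.rpow_nonneg (Nat.cast_nonneg _) _

lemma one_le_sg (H : ℕ) (hH : 1 ≤ H) : 1 ≤ sg H := by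
  unfold sg
  have h1 : (1 : ℕ) ∈ H.divisors := by rw [Nat.mem_divisors]; exact ⟨one_dvd _, by omega⟩
  have h2 := single_le_sum (f := fun g : ℕ => (g : ℝ) ^ (-(1 / 2) : ℝ)) (fun g _ => Real.rpow_nonneg (Nat.cast_nonneg _) _) h1
  simpa using h2

/-- the singular series -/
noncomputable def Sing (s : ℕ) (H : ℕ) : ℝ := ∑' q : ℕ, kap s q ^ 2 * (cz q (H : ℤ) : ℝ)

lemma cz_zero_left (h : ℤ) : cz 0 h = 0 := by unfold cz; simp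

lemma abs_cz_le_sum (q H : ℕ) : |(cz q (H : ℤ) : ℝ)| ≤ ∑ g ∈ q.divisors.filter (fun g => g ∣ H), (g : ℝ) := by
  unfold cz
  push_cast
  refine (abs_sum_le_sum_abs _ _).trans ?_
  have e : (q.divisors.filter (fun d : ℕ => (d : ℤ) ∣ (H : ℤ))) = q.divisors.filter (fun g => g ∣ H) := by
    apply filter_congr
    intro d _
    exact Int.natCast_dvd_natCast
  rw [e]
  apply sum_le_sum
  intro d _
  rw [abs_mul, Nat.abs_cast]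
  have h1 : |((ArithmeticFunction.moebius (q / d) : ℤ) : ℝ)| ≤ 1 := by
    exact_mod_cast ArithmeticFunction.abs_moebius_le_one
  calc _ ≤ 1 * (d : ℝ) := mul_le_mul_of_nonneg_right h1 (Nat.cast_nonneg _)
    _ = _ := one_mul _

lemma mult_sum : ∃ Z : ℝ, 0 ≤ Z ∧ ∀ g : ℕ, 1 ≤ g → ∀ z : ℕ, ∑ q ∈ (Icc 1 z).filter (fun q => g ∣ q), (q : ℝ) ^ (-(3 / 2) : ℝ) ≤ Z * (g : ℝ) ^ (-(3 / 2) : ℝ) := by
  have hs : Summable (fun n : ℕ => (n : ℝ) ^ (-(3 / 2) : ℝ)) := by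
    rw [Real.summable_nat_rpow]
    norm_num
  refine ⟨∑' n : ℕ, (n : ℝ) ^ (-(3 / 2) : ℝ), tsum_nonneg fun n => Real.rpow_nonneg (Nat.cast_nonneg _) _, fun g hg z => ?_⟩
  have e1 : ∑ q ∈ (Icc 1 z).filter (fun q => g ∣ q), (q : ℝ) ^ (-(3 / 2) : ℝ) = ∑ m ∈ Icc 1 (z / g), (m : ℝ) ^ (-(3 / 2) : ℝ) * (g : ℝ) ^ (-(3 / 2) : ℝ) := by
    symm
    apply sum_bij (fun m _ => m * g)
    · intro m hm
      rw [mem_Icc] at hm
      rw [mem_filter, mem_Icc]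
      refine ⟨⟨Nat.mul_pos hm.1 hg, ?_⟩, Dvd.intro_left _ rfl⟩
      exact (Nat.le_div_iff_mul_le hg).1 hm.2
    · intro m _ m' _ h
      exact Nat.eq_of_mul_eq_mul_right hg h
    · intro d hd
      rw [mem_filter, mem_Icc] at hd
      refine ⟨d / g, ?_, Nat.div_mul_cancel hd.2⟩
      rw [mem_Icc]
      exact ⟨Nat.div_pos (Nat.le_of_dvd hd.1.1 hd.2) hg, Nat.div_le_div_right hd.1.2⟩
    · intro m hm
      push_cast
      rw [Real.mul_rpow (Nat.cast_nonneg _) (Nat.cast_nonneg _)]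
  rw [e1, ← sum_mul]
  apply mul_le_mul_of_nonneg_right _ (Real.rpow_nonneg (Nat.cast_nonneg _) _)
  exact hs.sum_le_tsum _ fun n _ => Real.rpow_nonneg (Nat.cast_nonneg _) _

/-- the basic average of Ramanujan sums -/
lemma cz_avg : ∃ Z : ℝ, 0 ≤ Z ∧ ∀ H : ℕ, 1 ≤ H → ∀ z : ℕ, ∑ q ∈ Icc 1 z, (q : ℝ) ^ (-(3 / 2) : ℝ) * |(cz q (H : ℤ) : ℝ)| ≤ Z * sg H := by
  obtain ⟨Z, hZ, h⟩ := mult_sum
  refine ⟨Z, hZ, fun H hH z => ?_⟩
  have h1 : ∀ q ∈ Icc 1 z, (q : ℝ) ^ (-(3 / 2) : ℝ) * |(cz q (H : ℤ) : ℝ)| ≤ ∑ g ∈ H.divisors, if g ∣ q then (g : ℝ) * (q : ℝ) ^ (-(3 / 2) : ℝ) else 0 := by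
    intro q hq
    rw [mem_Icc] at hq
    have h2 := mul_le_mul_of_nonneg_left (abs_cz_le_sum q H) (Real.rpow_nonneg (Nat.cast_nonneg q) (-(3 / 2) : ℝ))
    refine h2.trans (le_of_eq ?_)
    rw [mul_sum, ← sum_filter]
    have e : q.divisors.filter (fun g => g ∣ H) = H.divisors.filter (fun g => g ∣ q) := by
      ext g
      rw [mem_filter, mem_filter, Nat.mem_divisors, Nat.mem_divisors]
      constructor
      · rintro ⟨⟨a, b⟩, c⟩; exact ⟨⟨c, by omega⟩, a⟩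
      · rintro ⟨⟨a, b⟩, c⟩; exact ⟨⟨c, by omega⟩, a⟩
    rw [e]
    apply sum_congr rfl
    intro g _
    ring
  refine (sum_le_sum h1).trans ?_
  rw [sum_comm]
  unfold sg
  rw [mul_sum]
  apply sum_le_sum
  intro g hg
  have hg0 : 1 ≤ g := Nat.pos_of_mem_divisors hg
  have hg1 : (0 : ℝ) < g := by exact_mod_cast hg0
  rw [← sum_filter, ← mul_sum]
  calc (g : ℝ) * ∑ q ∈ (Icc 1 z).filter (fun q => g ∣ q), (q : ℝ) ^ (-(3 / 2) : ℝ) ≤ (g : ℝ) * (Z * (g : ℝ) ^ (-(3 / 2) : ℝ)) :=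
        mul_le_mul_of_nonneg_left (h g hg0 z) hg1.le
    _ = Z * ((g : ℝ) ^ (1 : ℝ) * (g : ℝ) ^ (-(3 / 2) : ℝ)) := by rw [Real.rpow_one]; ring
    _ = Z * (g : ℝ) ^ (-(1 / 2) : ℝ) := by rw [← Real.rpow_add hg1]; norm_num

/-- the averages with divisor functions -/
theorem cz_sums (t : ℕ) : ∃ Cs : ℝ, 0 ≤ Cs ∧ ∀ H : ℕ, 1 ≤ H → ∀ z : ℕ,
    ∑ q ∈ Icc 1 z, ((dk (t + 1) q : ℝ) / q) ^ 2 * |(cz q (H : ℤ) : ℝ)| ≤ Cs * sg H ∧
    ∀ K : ℕ, 1 ≤ K → ∑ q ∈ Ioc K z, ((dk (t + 1) q : ℝ) / q) ^ 2 * |(cz q (H : ℤ) : ℝ)| ≤ Cs * (K : ℝ) ^ (-(1 / 4) : ℝ) * sg H := by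
  obtain ⟨C, hC1, hC⟩ := dk_eps (t + 1) (1 / 8) (by norm_num)
  obtain ⟨Z, hZ0, hZ⟩ := cz_avg
  have hb : ∀ q : ℕ, 1 ≤ q → ((dk (t + 1) q : ℝ) / q) ^ 2 ≤ C ^ 2 * (q : ℝ) ^ (-(7 / 4) : ℝ) := by
    intro q hq
    have hq0 : (0 : ℝ) < q := by exact_mod_cast hq
    have h1 := hC q hq
    have h2 : (dk (t + 1) q : ℝ) / q ≤ C * (q : ℝ) ^ (-(7 / 8) : ℝ) := by
      rw [div_le_iff₀ hq0]
      calc (dk (t + 1) q : ℝ) ≤ C * (q : ℝ) ^ (1 / 8 : ℝ) := h1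
        _ = C * ((q : ℝ) ^ (-(7 / 8) : ℝ) * (q : ℝ) ^ (1 : ℝ)) := by rw [← Real.rpow_add hq0]; norm_num
        _ = _ := by rw [Real.rpow_one]; ring
    calc ((dk (t + 1) q : ℝ) / q) ^ 2 ≤ (C * (q : ℝ) ^ (-(7 / 8) : ℝ)) ^ 2 := pow_le_pow_left₀ (by positivity) h2 2
      _ = C ^ 2 * ((q : ℝ) ^ (-(7 / 8) : ℝ) * (q : ℝ) ^ (-(7 / 8) : ℝ)) := by ring
      _ = _ := by rw [← Real.rpow_add hq0]; norm_num
  refine ⟨C ^ 2 * Z, by positivity, fun H hH z => ⟨?_, fun K hK => ?_⟩⟩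
  · have h1 : ∀ q ∈ Icc 1 z, ((dk (t + 1) q : ℝ) / q) ^ 2 * |(cz q (H : ℤ) : ℝ)| ≤ C ^ 2 * ((q : ℝ) ^ (-(3 / 2) : ℝ) * |(cz q (H : ℤ) : ℝ)|) := by
      intro q hq
      rw [mem_Icc] at hq
      have hq1 : (1 : ℝ) ≤ q := by exact_mod_cast hq.1
      have h2 : (q : ℝ) ^ (-(7 / 4) : ℝ) ≤ (q : ℝ) ^ (-(3 / 2) : ℝ) := Real.rpow_le_rpow_of_exponent_le hq1 (by norm_num)
      have h3 : ((dk (t + 1) q : ℝ) / q) ^ 2 ≤ C ^ 2 * (q : ℝ) ^ (-(3 / 2) : ℝ) := (hb q hq.1).trans (mul_le_mul_of_nonneg_left h2 (by positivity))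
      calc _ ≤ C ^ 2 * (q : ℝ) ^ (-(3 / 2) : ℝ) * |(cz q (H : ℤ) : ℝ)| := mul_le_mul_of_nonneg_right h3 (abs_nonneg _)
        _ = _ := by ring
    refine (sum_le_sum h1).trans ?_
    rw [← mul_sum]
    calc _ ≤ C ^ 2 * (Z * sg H) := mul_le_mul_of_nonneg_left (hZ H hH z) (by positivity)
      _ = _ := by ring
  · have hK0 : (0 : ℝ) < K := by exact_mod_cast hK
    have h1 : ∀ q ∈ Ioc K z, ((dk (t + 1) q : ℝ) / q) ^ 2 * |(cz q (H : ℤ) : ℝ)| ≤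
        C ^ 2 * (K : ℝ) ^ (-(1 / 4) : ℝ) * ((q : ℝ) ^ (-(3 / 2) : ℝ) * |(cz q (H : ℤ) : ℝ)|) := by
      intro q hq
      rw [mem_Ioc] at hq
      have hq1 : (1 : ℝ) ≤ q := by exact_mod_cast (by omega : 1 ≤ q)
      have hKq : (K : ℝ) ≤ q := by exact_mod_cast hq.1.le
      have h2 : (q : ℝ) ^ (-(7 / 4) : ℝ) ≤ (K : ℝ) ^ (-(1 / 4) : ℝ) * (q : ℝ) ^ (-(3 / 2) : ℝ) := by
        have e : (q : ℝ) ^ (-(7 / 4) : ℝ) = (q : ℝ) ^ (-(1 / 4) : ℝ) * (q : ℝ) ^ (-(3 / 2) : ℝ) := by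
          rw [← Real.rpow_add (by linarith)]; norm_num
        rw [e]
        apply mul_le_mul_of_nonneg_right _ (by positivity)
        exact Real.rpow_le_rpow_of_nonpos hK0 hKq (by norm_num)
      have h3 : ((dk (t + 1) q : ℝ) / q) ^ 2 ≤ C ^ 2 * ((K : ℝ) ^ (-(1 / 4) : ℝ) * (q : ℝ) ^ (-(3 / 2) : ℝ)) :=
        (hb q (by omega)).trans (mul_le_mul_of_nonneg_left h2 (by positivity))
      calc _ ≤ C ^ 2 * ((K : ℝ) ^ (-(1 / 4) : ℝ) * (q : ℝ) ^ (-(3 / 2) : ℝ)) * |(cz q (H : ℤ) : ℝ)| := mul_le_mul_of_nonneg_right h3 (abs_nonneg _)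
        _ = _ := by ring
    refine (sum_le_sum h1).trans ?_
    rw [← mul_sum]
    have h4 : ∑ q ∈ Ioc K z, (q : ℝ) ^ (-(3 / 2) : ℝ) * |(cz q (H : ℤ) : ℝ)| ≤ Z * sg H := by
      refine le_trans ?_ (hZ H hH z)
      apply sum_le_sum_of_subset_of_nonneg
      · intro q hq
        rw [mem_Ioc] at hq
        rw [mem_Icc]
        omega
      · intro q _ _
        positivity
    calc _ ≤ C ^ 2 * (K : ℝ) ^ (-(1 / 4) : ℝ) * (Z * sg H) := mul_le_mul_of_nonneg_left h4 (by positivity)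
      _ = _ := by ring

lemma kap_sq_le (t q : ℕ) (H : ℕ) : |kap (t + 1) q ^ 2 * (cz q (H : ℤ) : ℝ)| ≤ ((dk (t + 1) q : ℝ) / q) ^ 2 * |(cz q (H : ℤ) : ℝ)| := by
  rcases Nat.eq_zero_or_pos q with h | h
  · subst h
    rw [cz_zero_left]
    simp
  · rw [abs_mul, abs_of_nonneg (by positivity)]
    apply mul_le_mul_of_nonneg_right _ (abs_nonneg _)
    exact pow_le_pow_left₀ (kap_nonneg _ _) (kap_le (t + 1) q h) 2

theorem sing_summable (t H : ℕ) (hH : 1 ≤ H) : Summable (fun q : ℕ => kap (t + 1) q ^ 2 * (cz q (H : ℤ) : ℝ)) := by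
  obtain ⟨Cs, hCs, h⟩ := cz_sums t
  have h1 : Summable (fun q : ℕ => ((dk (t + 1) q : ℝ) / q) ^ 2 * |(cz q (H : ℤ) : ℝ)|) := by
    apply summable_of_sum_range_le (c := Cs * sg H)
    · intro n; positivity
    · intro n
      refine le_trans ?_ (h H hH n).1
      have : ∑ q ∈ range n, ((dk (t + 1) q : ℝ) / q) ^ 2 * |(cz q (H : ℤ) : ℝ)| ≤ ∑ q ∈ insert 0 (Icc 1 n), ((dk (t + 1) q : ℝ) / q) ^ 2 * |(cz q (H : ℤ) : ℝ)| := by
        apply sum_le_sum_of_subset_of_nonneg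
        · intro q hq
          rw [mem_range] at hq
          rw [mem_insert, mem_Icc]
          omega
        · intro q _ _
          positivity
      refine this.trans (le_of_eq ?_)
      rw [sum_insert (by simp), cz_zero_left]
      simp
  exact Summable.of_norm_bounded h1 fun q => by rw [Real.norm_eq_abs]; exact kap_sq_le t q H

/-- the tail of the singular series -/
theorem sing_tail (t : ℕ) : ∃ Cs : ℝ, 0 ≤ Cs ∧ ∀ H : ℕ, 1 ≤ H → ∀ K : ℕ, 1 ≤ K →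
    |∑ q ∈ Icc 1 K, kap (t + 1) q ^ 2 * (cz q (H : ℤ) : ℝ) - Sing (t + 1) H| ≤ Cs * (K : ℝ) ^ (-(1 / 4) : ℝ) * sg H := by
  obtain ⟨Cs, hCs, h⟩ := cz_sums t
  refine ⟨Cs, hCs, fun H hH K hK => ?_⟩
  have hs := (sing_summable t H hH).hasSum.tendsto_sum_nat
  have h1 : Filter.Tendsto (fun n : ℕ => |∑ q ∈ Icc 1 K, kap (t + 1) q ^ 2 * (cz q (H : ℤ) : ℝ) - ∑ q ∈ range n, kap (t + 1) q ^ 2 * (cz q (H : ℤ) : ℝ)|)
      Filter.atTop (nhds |∑ q ∈ Icc 1 K, kap (t + 1) q ^ 2 * (cz q (H : ℤ) : ℝ) - Sing (t + 1) H|) := by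
    exact (tendsto_const_nhds.sub hs).abs
  apply le_of_tendsto h1
  filter_upwards [Filter.eventually_ge_atTop (K + 1)] with n hn
  have e1 : ∑ q ∈ range n, kap (t + 1) q ^ 2 * (cz q (H : ℤ) : ℝ) = ∑ q ∈ Icc 1 K, kap (t + 1) q ^ 2 * (cz q (H : ℤ) : ℝ) +
      ∑ q ∈ Ioc K (n - 1), kap (t + 1) q ^ 2 * (cz q (H : ℤ) : ℝ) := by
    have h2 : range n = insert 0 (Icc 1 K ∪ Ioc K (n - 1)) := by
      ext q
      rw [mem_range, mem_insert, mem_union, mem_Icc, mem_Ioc]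
      omega
    have h3 : Disjoint (Icc 1 K) (Ioc K (n - 1)) := by
      rw [disjoint_left]
      intro q hq hq'
      rw [mem_Icc] at hq
      rw [mem_Ioc] at hq'
      omega
    rw [h2, sum_insert (by rw [mem_union, mem_Icc, mem_Ioc]; omega), sum_union h3, cz_zero_left]
    simp
  rw [e1, sub_add_cancel_left, abs_neg]
  refine (abs_sum_le_sum_abs _ _).trans ?_
  refine (sum_le_sum fun q _ => kap_sq_le t q H).trans ?_
  exact (h H hH (n - 1)).2 K hK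

end Pool.Agent.TH212.DV
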